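import Mathlib

namespace Pool.Agent.Results.MP_6a97ae_co.Order
open Finset

/-- `ν(s)`: the number of pairs of elements of `A` with difference `s` -/
def nu (A : Finset ℕ) (s : ℕ) : ℕ := ((A ×ˢ A).filter (fun p => p.2 = p.1 + s)).card

/-- `A` is admissible if `ν(s) ≤ 2s` for every positive `s` -/
def Admissible (A : Finset ℕ) : Prop := ∀ s, 1 ≤ s → nu A s ≤ 2 * s

open Classical in
/-- `R(n)`: the largest size of an admissible subset of `{1,…,n}` -/
noncomputable def R (n : ℕ) : ℕ := ((Icc 1 n).powerset.filter Admissible).sup card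

lemma resid (p N c : ℕ) (hp : 0 < p) (S : Finset ℕ) (φ : ℕ → ℕ) (h1 : ∀ j ∈ S, φ j < N * p)
    (h2 : Set.InjOn φ S) (h3 : ∀ j ∈ S, φ j % p = c) : S.card ≤ N := by
  rw [← card_range N]
  apply card_le_card_of_injOn (fun j => φ j / p)
  · intro j hj
    simp only [coe_range, Set.mem_Iio]
    exact (Nat.div_lt_iff_lt_mul hp).2 (h1 j hj)
  · intro i hi j hj h
    apply h2 hi hj
    simp only at h
    rw [← Nat.div_add_mod (φ i) p, ← Nat.div_add_mod (φ j) p, h, h3 i hi, h3 j hj]

def T (j : ℕ) : ℕ := j.choose 2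

lemma T_add (j d : ℕ) : T (j + d) = T j + d * j + T d := by
  induction d with
  | zero => simp [T]
  | succ d ih =>
    have e : ∀ m, T (m + 1) = T m + m := fun m => by
      simp [T, Nat.choose_succ_succ']; ring
    rw [← add_assoc, e, e, ih]; ring

lemma T_odd (k : ℕ) : T (2 * k + 1) = (2 * k + 1) * k := by
  induction k with
  | zero => simp [T]
  | succ k ih =>
    rw [show 2 * (k + 1) + 1 = (2 * k + 1) + 2 by ring, T_add, ih]
    simp [T]; ring

/-- the offset of the `i`-th point -/
def f (p i : ℕ) : ℕ := (T (i % p) + i / p) % p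

lemma f_step (k i d : ℕ) (hd : d ≤ 2 * k + 1) :
    f (2 * k + 1) (i + d) ≡ f (2 * k + 1) i + T d + (d * (i % (2 * k + 1)) +
      if 2 * k + 1 ≤ i % (2 * k + 1) + d then 1 else 0) [MOD (2 * k + 1)] := by
  set p := 2 * k + 1 with hp
  have p0 : 0 < p := by omega
  have lt := Nat.mod_lt i p0
  have e := Nat.div_add_mod i p
  unfold f
  refine (Nat.mod_modEq _ _).trans (Nat.ModEq.symm ((((Nat.mod_modEq _ _).add_right _).add_right _).trans ?_))
  split_ifs with h
  · obtain ⟨j, hj⟩ := Nat.exists_eq_add_of_le h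
    have e1 : i + d = j + p * (i / p + 1) := by rw [mul_add]; omega
    have a : (i + d) % p = j := by
      rw [e1, Nat.add_mul_mod_self_left, Nat.mod_eq_of_lt (by omega)]
    have b : (i + d) / p = i / p + 1 := by
      rw [e1, Nat.add_mul_div_left _ _ p0, Nat.div_eq_of_lt (by omega), zero_add]
    rw [a, b]
    have c := T_add (i % p) d
    rw [hj, add_comm p j, T_add j p, hp, T_odd, ← hp] at c
    have : T (i % p) + i / p + T d + (d * (i % p) + 1) = T j + (i / p + 1) + p * (j + k) := by
      rw [mul_add]; omega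
    rw [this]
    simp [Nat.ModEq]
  · have e1 : i + d = (i % p + d) + p * (i / p) := by omega
    have a : (i + d) % p = i % p + d := by
      rw [e1, Nat.add_mul_mod_self_left, Nat.mod_eq_of_lt (by omega)]
    have b : (i + d) / p = i / p := by
      rw [e1, Nat.add_mul_div_left _ _ p0, Nat.div_eq_of_lt (by omega), zero_add]
    rw [a, b, T_add]
    unfold Nat.ModEq
    congr 1
    ring

def I (p : ℕ) : Finset ℕ := (range (2 * p * p)).filter (fun i => i % p + 1 < p)

lemma count (k d : ℕ) (hd1 : 1 ≤ d) (hd : d ≤ 2 * k + 1) (c : ℕ) (V : Finset ℕ) :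
    ((I (2 * k + 1)).filter (fun i => f (2 * k + 1) (i + d) ≡ f (2 * k + 1) i + c [MOD (2 * k + 1)] ∧
      f (2 * k + 1) i ∈ V)).card ≤ d * (2 * V.card) := by
  set p := 2 * k + 1 with hp
  have p0 : 0 < p := by omega
  let φ : ℕ → ℕ := fun j => d * j + if p ≤ j + d then 1 else 0
  let J := (range (p - 1)).filter (fun j => T d + φ j ≡ c [MOD p])
  have hJ : J.card ≤ d := by
    rcases J.eq_empty_or_nonempty with h | ⟨j0, h0⟩
    · simp [h]
    refine resid p d (φ j0 % p) p0 J φ (fun j hj => ?_) (fun i hi j hj h => ?_) (fun j hj => ?_)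
    · have := mem_range.1 (mem_filter.1 hj).1
      have h2 : d * (j + 2) ≤ d * p := Nat.mul_le_mul_left _ (by omega)
      simp only [φ]
      split_ifs <;> nlinarith
    · have hi := mem_range.1 (mem_filter.1 hi).1
      have hj := mem_range.1 (mem_filter.1 hj).1
      simp only [φ] at h
      rcases lt_trichotomy i j with l | l | l
      · have : d * (i + 1) ≤ d * j := Nat.mul_le_mul_left _ l
        split_ifs at h <;> first | omega | nlinarith
      · exact l
      · have : d * (j + 1) ≤ d * i := Nat.mul_le_mul_left _ l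
        split_ifs at h <;> first | omega | nlinarith
    · exact Nat.ModEq.add_left_cancel' (T d) ((mem_filter.1 hj).2.trans (mem_filter.1 h0).2.symm)
  refine le_trans ?_ (Nat.mul_le_mul_right _ hJ)
  rw [mul_comm J.card]
  apply card_le_mul_card_image_of_maps_to (f := fun i => i % p)
  · intro i hi
    simp only [I, mem_filter, mem_range] at hi
    refine mem_filter.2 ⟨mem_range.2 (by omega), ?_⟩
    have := (f_step k i d hd).symm.trans hi.2.1
    rw [add_assoc] at this
    exact Nat.ModEq.add_left_cancel' _ this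
  · intro j _
    apply card_le_mul_card_image_of_maps_to (f := f p)
    · intro i hi; exact (mem_filter.1 (mem_filter.1 hi).1).2.2
    · intro v _
      rcases (filter (fun i => f p i = v) (filter (fun i => i % p = j) ((I p).filter (fun i =>
        f p (i + d) ≡ f p i + c [MOD p] ∧ f p i ∈ V)))).eq_empty_or_nonempty with h | ⟨i0, h0⟩
      · rw [h]; simp
      refine resid p 2 (i0 / p % p) p0 _ (fun i => i / p) (fun i hi => ?_) (fun i hi i' hi' h => ?_)
        (fun i hi => ?_)
      · simp only [I, mem_filter, mem_range] at hi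
        exact (Nat.div_lt_iff_lt_mul p0).2 hi.1.1.1.1
      · simp only [I, coe_filter, mem_filter, Set.mem_ofPred_eq] at hi hi' h
        rw [← Nat.div_add_mod i p, ← Nat.div_add_mod i' p, h, hi.1.2, hi'.1.2]
      · simp only [I, mem_filter] at hi h0
        have := hi.2.trans h0.2.symm
        unfold f at this
        rw [hi.1.2, h0.1.2] at this
        exact Nat.ModEq.add_left_cancel' (T j) this

lemma card_I (p : ℕ) (hp : 0 < p) : 2 * p * (p - 1) ≤ (I p).card ∧ (I p).card ≤ 2 * p * (p - 1) := by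
  have e : 2 * p * (p - 1) = (range (2 * p) ×ˢ range (p - 1)).card := by simp
  rw [e]
  constructor
  · apply card_le_card_of_injOn (fun q => q.2 + p * q.1)
    · rintro ⟨b, j⟩ h
      simp only [coe_product, Set.mem_prod, mem_coe, mem_range] at h
      simp only [I, coe_filter, mem_range, Set.mem_ofPred_eq, Nat.add_mul_mod_self_left]
      rw [Nat.mod_eq_of_lt (by omega)]
      have : p * (b + 1) ≤ p * (2 * p) := Nat.mul_le_mul_left _ h.1
      constructor
      · nlinarith [h.2, Nat.sub_le p 1]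
      · omega
    · rintro ⟨b, j⟩ h ⟨b', j'⟩ h' e
      simp only [coe_product, Set.mem_prod, mem_coe, mem_range] at h h' e
      have a := congrArg (· % p) e
      simp only [Nat.add_mul_mod_self_left] at a
      rw [Nat.mod_eq_of_lt (by omega), Nat.mod_eq_of_lt (by omega)] at a
      subst a
      rw [Nat.eq_of_mul_eq_mul_left hp (Nat.add_left_cancel e)]
  · apply card_le_card_of_injOn (fun i => (i / p, i % p))
    · intro i hi
      simp only [I, coe_filter, mem_range, Set.mem_ofPred_eq] at hi
      simp only [coe_product, Set.mem_prod, mem_coe, mem_range]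
      exact ⟨(Nat.div_lt_iff_lt_mul hp).2 hi.1, by omega⟩
    · intro i _ i' _ h
      simp only [Prod.mk.injEq] at h
      rw [← Nat.div_add_mod i p, ← Nat.div_add_mod i' p, h.1, h.2]

lemma lower (k n : ℕ) (hn : 2 * (2 * k + 1) ^ 3 ≤ n) : 2 * (2 * k + 1) * (2 * k) ≤ R n := by
  classical
  set p := 2 * k + 1 with hp
  have p0 : 0 < p := by omega
  have fl : ∀ i, f p i < p := fun i => Nat.mod_lt _ p0
  let a : ℕ → ℕ := fun i => p * i + f p i + 1
  have inj : Function.Injective a := by
    intro i j h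
    have a1 := fl i
    have a2 := fl j
    simp only [a] at h
    rcases lt_trichotomy i j with l | l | l
    · have := Nat.mul_le_mul_left p (show i + 1 ≤ j from l); nlinarith
    · exact l
    · have := Nat.mul_le_mul_left p (show j + 1 ≤ i from l); nlinarith
  have hc : ((I p).image a).card = (I p).card := card_image_of_injective _ inj
  have adm : Admissible ((I p).image a) := by
    intro s hs
    obtain ⟨d, e, he, rfl⟩ : ∃ d e, e < p ∧ s = p * d + e :=
      ⟨s / p, s % p, Nat.mod_lt _ p0, (Nat.div_add_mod s p).symm⟩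
    have sub : nu ((I p).image a) (p * d + e) ≤
        ((I p).filter (fun i => ∃ j, a j = a i + (p * d + e))).card := by
      refine le_trans ?_ (card_image_le (f := fun i => (a i, a i + (p * d + e))))
      refine card_le_card fun q hq => ?_
      simp only [mem_filter, mem_product, mem_image] at hq ⊢
      obtain ⟨⟨⟨i, hi, e1⟩, ⟨j, -, e2⟩⟩, e3⟩ := hq
      exact ⟨i, ⟨hi, j, by rw [e1, e2, e3]⟩, by rw [e1, ← e3]⟩
    by_cases hd : p - 1 ≤ d
    · have := (sub.trans (card_filter_le _ _)).trans (card_I p p0).2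
      have := Nat.mul_le_mul_left (2 * p) hd
      nlinarith
    have h1 : (I p).filter (fun i => ∃ j, a j = a i + (p * d + e)) ⊆
        (I p).filter (fun i => 1 ≤ d ∧ f p (i + d) ≡ f p i + e [MOD p] ∧ f p i ∈ range (p - e)) ∪
        (I p).filter (fun i => f p (i + (d + 1)) ≡ f p i + e [MOD p] ∧ f p i ∈ Ico (p - e) p) := by
      intro i hi
      obtain ⟨hi, j, hj⟩ := mem_filter.1 hi
      simp only [a] at hj
      have a1 := fl i
      have a2 := fl j
      have j1 : i + d ≤ j := by
        by_contra h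
        have := Nat.mul_le_mul_left p (show j + 1 ≤ i + d by omega); nlinarith
      have j2 : j ≤ i + (d + 1) := by
        by_contra h
        have := Nat.mul_le_mul_left p (show i + d + 2 ≤ j by omega); nlinarith
      rcases j1.eq_or_lt with h | h
      · subst h
        rw [mul_add] at hj
        have e1 : f p (i + d) = f p i + e := by omega
        refine mem_union_left _ (mem_filter.2 ⟨hi, ?_, e1 ▸ Nat.ModEq.refl _, mem_range.2 (by omega)⟩)
        by_contra h0
        have : d = 0 := by omega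
        subst this
        simp at e1 hs
        omega
      · have h : j = i + (d + 1) := by omega
        subst h
        rw [mul_add, mul_add] at hj
        have e1 : f p (i + (d + 1)) + p = f p i + e := by omega
        refine mem_union_right _ (mem_filter.2 ⟨hi, ?_, mem_Ico.2 (by omega)⟩)
        rw [← e1]; simp [Nat.ModEq]
    have h2 := (card_le_card h1).trans (card_union_le _ _)
    have h3 := count k (d + 1) (by omega) (by omega) e (Ico (p - e) p)
    have h4 : ((I p).filter (fun i => 1 ≤ d ∧ f p (i + d) ≡ f p i + e [MOD p] ∧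
        f p i ∈ range (p - e))).card ≤ d * (2 * (p - e)) := by
      rcases Nat.eq_zero_or_pos d with rfl | d0
      · simp
      · have := count k d d0 (by omega) e (range (p - e))
        rw [card_range] at this
        exact le_trans (card_le_card fun i hi => mem_filter.2 ⟨(mem_filter.1 hi).1,
          (mem_filter.1 hi).2.2⟩) this
    rw [Nat.card_Ico, ← hp, show p - (p - e) = e by omega] at h3
    obtain ⟨u, hu⟩ := Nat.exists_eq_add_of_le he.le
    rw [show p - e = u by omega] at h2 h3 h4
    have : d * (2 * u) + (d + 1) * (2 * e) = 2 * (p * d + e) := by rw [hu]; ring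
    omega
  have mem : (I p).image a ∈ (Icc 1 n).powerset.filter Admissible := by
    refine mem_filter.2 ⟨mem_powerset.2 fun x hx => ?_, adm⟩
    obtain ⟨i, hi, rfl⟩ := mem_image.1 hx
    have := mem_range.1 (mem_filter.1 hi).1
    have := Nat.mul_le_mul_left p (show i + 1 ≤ 2 * p * p from this)
    have := fl i
    simp only [a, mem_Icc]
    constructor
    · omega
    · nlinarith
  have := le_sup (f := card) mem
  rw [hc] at this
  exact le_trans (by simpa [hp] using (card_I p p0).1) this

lemma upper (n L : ℕ) : 3 * ((R n - 1) * L) ≤ 3 * n + L ^ 3 := by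
  classical
  obtain ⟨A, hA, e⟩ := exists_mem_eq_sup ((Icc 1 n).powerset.filter Admissible)
    ⟨∅, mem_filter.2 ⟨by simp, fun s _ => by simp [nu]⟩⟩ card
  rw [R, e]
  obtain ⟨hA, adm⟩ := mem_filter.1 hA
  rcases Nat.eq_zero_or_pos A.card with h0 | h0
  · simp [h0]
  obtain ⟨r, hr⟩ : ∃ r, A.card = r + 1 := ⟨A.card - 1, by omega⟩
  let a := A.orderEmbOfFin hr
  have am : ∀ i, a i ∈ A := A.orderEmbOfFin_mem hr
  let g : Fin r → ℕ := fun i => a i.succ - a i.castSucc
  have lt : ∀ i : Fin r, a i.castSucc < a i.succ := fun i => a.strictMono Fin.castSucc_lt_succ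
  have s1 : ∑ i, g i ≤ n := by
    have e1 := Fin.sum_univ_succ (fun i => a i)
    have e2 := Fin.sum_univ_castSucc (fun i => a i)
    have e3 : ∑ i, g i + ∑ i : Fin r, a i.castSucc = ∑ i : Fin r, a i.succ := by
      rw [← sum_add_distrib]
      exact sum_congr rfl fun i _ => Nat.sub_add_cancel (lt i).le
    have := (mem_Icc.1 (mem_powerset.1 hA (am (Fin.last r)))).2
    omega
  have s2 : ∀ s, (univ.filter (fun i => g i = s)).card ≤ 2 * s := by
    intro s
    rcases Nat.eq_zero_or_pos s with rfl | hs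
    · rw [mul_zero, Nat.le_zero, card_eq_zero, filter_eq_empty_iff]
      intro i _
      have := lt i
      simp only [g]; omega
    refine le_trans ?_ (adm s hs)
    apply card_le_card_of_injOn (fun i => (a i.castSucc, a i.succ))
    · intro i hi
      simp only [coe_filter, mem_univ, true_and, Set.mem_ofPred_eq, g] at hi
      have := lt i
      exact mem_filter.2 ⟨mem_product.2 ⟨am _, am _⟩, by simp only; omega⟩
    · intro i _ j _ h
      simp only [Prod.mk.injEq] at h
      exact Fin.succ_injective _ (a.injective h.2)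
  have s3 : ∑ i, (L - g i) ≤ ∑ s ∈ range L, 2 * s * (L - s) := by
    calc ∑ i, (L - g i) = ∑ i, ∑ s ∈ range L, if g i = s then L - s else 0 := by
          refine sum_congr rfl fun i _ => ?_
          rw [sum_ite_eq]
          split_ifs with h
          · rfl
          · rw [mem_range] at h; omega
      _ = ∑ s ∈ range L, (univ.filter (fun i => g i = s)).card * (L - s) := by
          rw [sum_comm]
          refine sum_congr rfl fun s _ => ?_
          rw [← sum_filter, sum_const, smul_eq_mul]
      _ ≤ _ := sum_le_sum fun s _ => Nat.mul_le_mul_right _ (s2 s)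
  have s4 : ∀ M, 3 * ∑ s ∈ range M, 2 * s * (M - s) + M = M ^ 3 ∧
      ∑ s ∈ range M, 2 * s + M = M ^ 2 := by
    intro M
    induction M with
    | zero => simp
    | succ M ih =>
      have : ∑ s ∈ range M, 2 * s * (M + 1 - s)
          = ∑ s ∈ range M, 2 * s * (M - s) + ∑ s ∈ range M, 2 * s := by
        rw [← sum_add_distrib]
        refine sum_congr rfl fun s hs => ?_
        rw [show M + 1 - s = (M - s) + 1 by have := mem_range.1 hs; omega]; ring
      rw [sum_range_succ, sum_range_succ, this, Nat.add_sub_cancel_left]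
      constructor <;> nlinarith [ih.1, ih.2]
  have s5 : r * L ≤ ∑ i, g i + ∑ i, (L - g i) := by
    rw [← sum_add_distrib]
    calc r * L = ∑ _i : Fin r, L := by simp
      _ ≤ _ := sum_le_sum fun i _ => by omega
  have := (s4 L).1
  rw [hr, Nat.add_sub_cancel]
  omega

theorem result (ε : ℝ) (hε : 0 < ε) : ∃ N : ℕ, ∀ n ≥ N,
    (2 - ε) * (n : ℝ) ^ 2 ≤ (R n : ℝ) ^ 3 ∧ (R n : ℝ) ^ 3 ≤ (9 / 4 + ε) * (n : ℝ) ^ 2 := by
  obtain ⟨K, hK⟩ := exists_nat_ge (100 / ε + 100)
  have K1 : (100 : ℝ) ≤ K := by have : 0 ≤ 100 / ε := by positivity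
                                linarith
  have K2 : 100 ≤ ε * K := by
    have : 100 / ε ≤ K := by linarith
    rw [div_le_iff₀ hε] at this; linarith
  refine ⟨2 * (2 * K + 1) ^ 3, fun n hn => ⟨?_, ?_⟩⟩
  · have ex : ∃ k, n < 2 * (2 * (k + 1) + 1) ^ 3 := ⟨n, by nlinarith [Nat.zero_le (n ^ 3), Nat.zero_le (n ^ 2)]⟩
    classical
    have h1 := Nat.find_spec ex
    set k := Nat.find ex
    have hk : K ≤ k := by
      by_contra h
      have : (2 * (k + 1) + 1) ^ 3 ≤ (2 * K + 1) ^ 3 := Nat.pow_le_pow_left (by omega) 3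
      omega
    have K3 : 100 ≤ K := by exact_mod_cast K1
    have h2 : 2 * (2 * k + 1) ^ 3 ≤ n := by
      have := Nat.find_min ex (m := k - 1) (by omega)
      rw [show k - 1 + 1 = k by omega] at this
      omega
    have l : (2 * (2 * k + 1) * (2 * k) : ℝ) ≤ R n := by exact_mod_cast lower k n h2
    have h1' : (n : ℝ) ≤ 2 * (2 * k + 3) ^ 3 := by
      have : (n : ℝ) < 2 * (2 * (k + 1) + 1) ^ 3 := by exact_mod_cast h1
      nlinarith
    have hk' : (K : ℝ) ≤ k := by exact_mod_cast hk
    rcases le_total (2 - ε) 0 with h | h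
    · exact (mul_nonpos_of_nonpos_of_nonneg h (by positivity)).trans (by positivity)
    set x : ℝ := 2 * k with hx
    have x1 : 200 ≤ x := by linarith
    have x2 : 200 ≤ ε * x := by nlinarith
    have a1 : (n : ℝ) ^ 2 ≤ (2 * (x + 3) ^ 3) ^ 2 := pow_le_pow_left₀ (by positivity) h1' 2
    have a2 : (2 * x ^ 2) ^ 3 ≤ (R n : ℝ) ^ 3 := pow_le_pow_left₀ (by positivity) (by nlinarith) 3
    have a3 : (x + 3) ^ 6 ≤ x ^ 6 + 20 * x ^ 5 := by
      have b1 : 200 * x ^ 4 ≤ x ^ 5 := by nlinarith [pow_pos (show 0 < x by linarith) 4]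
      have b2 : 200 * x ^ 3 ≤ x ^ 4 := by nlinarith [pow_pos (show 0 < x by linarith) 3]
      have b3 : 200 * x ^ 2 ≤ x ^ 3 := by nlinarith [pow_pos (show 0 < x by linarith) 2]
      have b4 : 200 * x ≤ x ^ 2 := by nlinarith
      nlinarith
    have a4 : 200 * x ^ 5 ≤ ε * x ^ 6 := by nlinarith [pow_pos (show 0 < x by linarith) 5]
    have a5 : (2 - ε) * (n : ℝ) ^ 2 ≤ (2 - ε) * (4 * (x ^ 6 + 20 * x ^ 5)) :=
      mul_le_mul_of_nonneg_left (by nlinarith) h
    have a6 : 0 ≤ ε * x ^ 5 := by positivity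
    nlinarith
  · set L := Nat.sqrt (R n - 1) with hL
    have u := upper n L
    have l1 : L * L ≤ R n - 1 := Nat.sqrt_le _
    have l2 : R n - 1 < (L + 1) * (L + 1) := Nat.lt_succ_sqrt _
    have l3 : (R n : ℝ) ≤ ((L : ℝ) + 1) ^ 2 := by
      have : R n ≤ (L + 1) ^ 2 := by rw [sq]; omega
      exact_mod_cast this
    have hn' : 2 * (2 * (K : ℝ) + 1) ^ 3 ≤ n := by exact_mod_cast hn
    have r3 : (R n : ℝ) ^ 3 ≤ (((L : ℝ) + 1) ^ 2) ^ 3 := pow_le_pow_left₀ (by positivity) l3 3
    rcases le_total K L with h | h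
    · have h' : (K : ℝ) ≤ L := by exact_mod_cast h
      have u2 : 2 * ((R n - 1) * L) ≤ 3 * n := by nlinarith [Nat.mul_le_mul_right L l1]
      have r1 : 1 ≤ R n := by
        have K3 : 100 ≤ K := by exact_mod_cast K1
        have : 1 * 1 ≤ L * L := Nat.mul_le_mul (by omega) (by omega)
        omega
      have u3 : 2 * (((R n : ℝ) - 1) * L) ≤ 3 * n := by
        have : ((2 * ((R n - 1) * L) : ℕ) : ℝ) ≤ ((3 * n : ℕ) : ℝ) := by exact_mod_cast u2
        push_cast [Nat.cast_sub r1] at this
        exact this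
      have l1' : (L : ℝ) ^ 2 ≤ (R n : ℝ) - 1 := by
        have : ((L * L : ℕ) : ℝ) ≤ ((R n - 1 : ℕ) : ℝ) := by exact_mod_cast l1
        push_cast [Nat.cast_sub r1] at this
        nlinarith
      set x : ℝ := (L : ℝ)
      set y : ℝ := (R n : ℝ) - 1 with hy
      have x1 : 100 ≤ x := by linarith
      have x2 : 100 ≤ ε * x := by nlinarith
      have e : (R n : ℝ) = y + 1 := by linarith
      have y0 : 0 ≤ y * x := by nlinarith
      have b1 : (2 * (y * x)) ^ 2 ≤ (3 * n) ^ 2 := pow_le_pow_left₀ (by linarith) u3 2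
      have b2 : (y + 1) * x ≤ y * (x + 1) := by nlinarith
      have b3 : ((y + 1) * x) ^ 2 ≤ (y * (x + 1)) ^ 2 := pow_le_pow_left₀ (by nlinarith) b2 2
      have b4 : (x + 1) ^ 4 ≤ x ^ 4 + 5 * x ^ 3 := by
        have c1 : 100 * x ^ 2 ≤ x ^ 3 := by nlinarith [pow_pos (show 0 < x by linarith) 2]
        have c2 : 100 * x ≤ x ^ 2 := by nlinarith
        nlinarith
      have b5 : 100 * x ^ 3 ≤ ε * x ^ 4 := by nlinarith [pow_pos (show 0 < x by linarith) 3]
      have b6 : (y + 1) ^ 3 * x ^ 4 ≤ (y * x) ^ 2 * (x + 1) ^ 4 := by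
        calc (y + 1) ^ 3 * x ^ 4 = ((y + 1) * x) ^ 2 * ((y + 1) * x ^ 2) := by ring
          _ ≤ (y * (x + 1)) ^ 2 * ((x + 1) ^ 2 * x ^ 2) := by
              apply mul_le_mul b3 _ (by nlinarith) (by positivity)
              exact mul_le_mul_of_nonneg_right (by rw [← e]; exact l3) (by positivity)
          _ = _ := by ring
      have b7 : (y * x) ^ 2 * (x + 1) ^ 4 ≤ (9 / 4 * (n : ℝ) ^ 2) * (x ^ 4 + 5 * x ^ 3) :=
        mul_le_mul (by nlinarith) b4 (by positivity) (by positivity)
      have b8 : (9 / 4 * (n : ℝ) ^ 2) * (x ^ 4 + 5 * x ^ 3) ≤ (9 / 4 + ε) * (n : ℝ) ^ 2 * x ^ 4 := by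
        have : 45 / 4 * x ^ 3 ≤ ε * x ^ 4 := by nlinarith [pow_pos (show 0 < x by linarith) 3]
        nlinarith [mul_le_mul_of_nonneg_left this (sq_nonneg (n : ℝ))]
      rw [e]
      exact le_of_mul_le_mul_right (b6.trans (b7.trans b8)) (by positivity)
    · have h' : (L : ℝ) ≤ K := by exact_mod_cast h
      have c1 : ((L : ℝ) + 1) ^ 3 ≤ (2 * K + 1) ^ 3 := pow_le_pow_left₀ (by positivity) (by linarith) 3
      have c2 : (((L : ℝ) + 1) ^ 3) ^ 2 ≤ (n : ℝ) ^ 2 :=
        pow_le_pow_left₀ (by positivity) (by nlinarith [pow_pos (show (0 : ℝ) < 2 * K + 1 by linarith) 3]) 2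
      nlinarith [sq_nonneg (n : ℝ), mul_nonneg hε.le (sq_nonneg (n : ℝ))]

end Pool.Agent.Results.MP_6a97ae_co.Order
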